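import Pool.Agent.N343.AM.Stm

/-! Leaf AM/BAK for helper343: from Hamming distances back to distances (helper219). -/

open Filter Topology Finset

namespace Pool.Agent.N219.AM

open Pool.Agent.N343.AM

private lemma tele (hD : S_DIS) (x : ℕ → ℕ → Bool) (J : ℕ) : ∀ j ≤ J, ∀ i,
    (∀ t < j, dd (sg (x (i + t))) (x (i + t + 1)) < (1 / 2 : ℝ) ^ J) → x i j = x (i + j) 0 := by
  intro j
  induction j with
  | zero => intro _ i _; rfl
  | succ j ih =>
    intro hj i h
    have h1 : x i (j + 1) = x (i + 1) j := by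
      by_contra hne
      have h2 := hD.1 (sg (x i)) (x (i + 1)) j hne
      have h3 := h 0 (Nat.succ_pos j)
      simp only [add_zero] at h3
      have h4 : (1 / 2 : ℝ) ^ J ≤ (1 / 2 : ℝ) ^ j :=
        pow_le_pow_of_le_one (by norm_num) (by norm_num) (by omega)
      linarith
    rw [h1, ih (by omega) (i + 1) (fun t ht => by
      have := h (t + 1) (by omega)
      have e1 : i + (t + 1) = i + 1 + t := by ring
      rw [e1] at this
      exact this)]
    congr 1
    ring

private lemma dsum (e : ℕ → ℝ) (he : ∀ i, 0 ≤ e i) (n J : ℕ) :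
    ∑ i ∈ range n, ∑ j ∈ range J, e (i + j) ≤ J * ∑ i ∈ range (n + J), e i := by
  rw [Finset.sum_comm]
  have h : ∀ j ∈ range J, ∑ i ∈ range n, e (i + j) ≤ ∑ i ∈ range (n + J), e i := by
    intro j hj
    have hj' := Finset.mem_range.mp hj
    have h1 : ∑ i ∈ range (j + n), e i = ∑ i ∈ range j, e i + ∑ i ∈ range n, e (j + i) :=
      Finset.sum_range_add e j n
    have h2 : ∑ i ∈ range n, e (i + j) = ∑ i ∈ range n, e (j + i) :=
      Finset.sum_congr rfl (fun i _ => by rw [add_comm])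
    have h3 : 0 ≤ ∑ i ∈ range j, e i := Finset.sum_nonneg (fun i _ => he i)
    have h4 : ∑ i ∈ range (j + n), e i ≤ ∑ i ∈ range (n + J), e i :=
      Finset.sum_le_sum_of_subset_of_nonneg (Finset.range_subset_range.mpr (by omega))
        (fun i _ _ => he i)
    linarith
  calc ∑ j ∈ range J, ∑ i ∈ range n, e (i + j)
      ≤ ∑ j ∈ range J, ∑ i ∈ range (n + J), e i := Finset.sum_le_sum h
    _ = J * ∑ i ∈ range (n + J), e i := by simp

private lemma hs_eq (z y : ℕ → Bool) (n : ℕ) :
    (hs z y n : ℝ) = ∑ i ∈ range n, (if z i ≠ y i then (1 : ℝ) else 0) := by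
  unfold hs
  rw [Finset.card_filter]
  push_cast
  rfl

private lemma sgi (y : ℕ → Bool) : ∀ i j, (sg^[i] y) j = y (i + j) := by
  intro i
  induction i generalizing y with
  | zero => intro j; simp
  | succ i ih =>
    intro j
    rw [Function.iterate_succ_apply, ih]
    show y (i + j + 1) = y (i + 1 + j)
    congr 1
    ring

theorem main (hD : S_DIS) : S_BAK := by
  intro J x y n
  have hd0 : ∀ i, 0 ≤ dd (sg (x i)) (x (i + 1)) := fun i => (hD.2.2 _ _).1
  have key : ∀ i, dd (sg^[i] y) (x i) ≤ (1 / 2 : ℝ) ^ J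
      + ∑ j ∈ range J, (if x (i + j) 0 ≠ y (i + j) then (1 : ℝ) else 0)
      + 2 ^ J * ∑ t ∈ range J, dd (sg (x (i + t))) (x (i + t + 1)) := by
    intro i
    have hA : 0 ≤ ∑ j ∈ range J, (if x (i + j) 0 ≠ y (i + j) then (1 : ℝ) else 0) :=
      Finset.sum_nonneg (fun j _ => by split_ifs <;> norm_num)
    have hB : 0 ≤ ∑ t ∈ range J, dd (sg (x (i + t))) (x (i + t + 1)) :=
      Finset.sum_nonneg (fun t _ => hd0 (i + t))
    have hB' : 0 ≤ 2 ^ J * ∑ t ∈ range J, dd (sg (x (i + t))) (x (i + t + 1)) := by positivity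
    have hp : (0 : ℝ) < (1 / 2 : ℝ) ^ J := by positivity
    have hle1 := (hD.2.2 (sg^[i] y) (x i)).2
    by_cases c1 : ∀ j < J, (sg^[i] y) j = x i j
    · have := hD.2.1 (sg^[i] y) (x i) J c1
      linarith
    · push Not at c1
      obtain ⟨j, hj, hne⟩ := c1
      rw [sgi] at hne
      by_cases c2 : x (i + j) 0 = y (i + j)
      · -- then telescoping
        have h3 : ∃ t < j, (1 / 2 : ℝ) ^ J ≤ dd (sg (x (i + t))) (x (i + t + 1)) := by
          by_contra hcon
          push Not at hcon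
          have := tele hD x J j hj.le i hcon
          apply hne
          rw [this, c2]
        obtain ⟨t, ht, h4⟩ := h3
        have h5 : dd (sg (x (i + t))) (x (i + t + 1))
            ≤ ∑ t ∈ range J, dd (sg (x (i + t))) (x (i + t + 1)) :=
          Finset.single_le_sum (f := fun t => dd (sg (x (i + t))) (x (i + t + 1)))
            (fun t _ => hd0 (i + t)) (Finset.mem_range.mpr (by omega))
        have h6 : (1 : ℝ) ≤ 2 ^ J * ∑ t ∈ range J, dd (sg (x (i + t))) (x (i + t + 1)) := by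
          have h7 : (2 : ℝ) ^ J * (1 / 2 : ℝ) ^ J = 1 := by
            rw [← mul_pow]; norm_num
          calc (1 : ℝ) = 2 ^ J * (1 / 2 : ℝ) ^ J := h7.symm
            _ ≤ 2 ^ J * ∑ t ∈ range J, dd (sg (x (i + t))) (x (i + t + 1)) := by
              apply mul_le_mul_of_nonneg_left (le_trans h4 h5) (by positivity)
        linarith
      · have h5 : (1 : ℝ) ≤ ∑ j ∈ range J, (if x (i + j) 0 ≠ y (i + j) then (1 : ℝ) else 0) := by
          have := Finset.single_le_sum
            (f := fun j => (if x (i + j) 0 ≠ y (i + j) then (1 : ℝ) else 0))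
            (s := range J) (fun j _ => by split_ifs <;> norm_num) (Finset.mem_range.mpr hj)
          simpa [c2] using this
        linarith
  have s1 := dsum (fun i => if x i 0 ≠ y i then (1 : ℝ) else 0)
    (fun i => by split_ifs <;> norm_num) n J
  have s2 := dsum (fun i => dd (sg (x i)) (x (i + 1))) hd0 n J
  have s3 : ∑ i ∈ range n, dd (sg^[i] y) (x i) ≤ n * (1 / 2 : ℝ) ^ J
      + ∑ i ∈ range n, ∑ j ∈ range J, (if x (i + j) 0 ≠ y (i + j) then (1 : ℝ) else 0)
      + 2 ^ J * ∑ i ∈ range n, ∑ t ∈ range J, dd (sg (x (i + t))) (x (i + t + 1)) := by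
    refine (Finset.sum_le_sum (fun i _ => key i)).trans (le_of_eq ?_)
    rw [Finset.sum_add_distrib, Finset.sum_add_distrib, ← Finset.mul_sum]
    simp
  rw [hs_eq]
  have hS : 0 ≤ ∑ i ∈ range (n + J), dd (sg (x i)) (x (i + 1)) :=
    Finset.sum_nonneg (fun i _ => hd0 i)
  have s4 : (2 : ℝ) ^ J * ∑ i ∈ range n, ∑ t ∈ range J, dd (sg (x (i + t))) (x (i + t + 1))
      ≤ 2 ^ J * J * J * ∑ i ∈ range (n + J), dd (sg (x i)) (x (i + 1)) := by
    have h8 : (J : ℝ) ≤ J * J := by
      rcases Nat.eq_zero_or_pos J with h | h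
      · subst h; simp
      · have : (1 : ℝ) ≤ J := by exact_mod_cast h
        nlinarith
    calc (2 : ℝ) ^ J * ∑ i ∈ range n, ∑ t ∈ range J, dd (sg (x (i + t))) (x (i + t + 1))
        ≤ 2 ^ J * (J * ∑ i ∈ range (n + J), dd (sg (x i)) (x (i + 1))) :=
          mul_le_mul_of_nonneg_left s2 (by positivity)
      _ ≤ 2 ^ J * ((J * J) * ∑ i ∈ range (n + J), dd (sg (x i)) (x (i + 1))) :=
          mul_le_mul_of_nonneg_left (mul_le_mul_of_nonneg_right h8 hS) (by positivity)
      _ = 2 ^ J * J * J * ∑ i ∈ range (n + J), dd (sg (x i)) (x (i + 1)) := by ring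
  linarith

end Pool.Agent.N219.AM
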